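import Pool.Agent.W482.IP.Stm

/-! Project IP, part DIK: the Dikin ellipsoid. -/

set_option autoImplicit false

namespace Pool.Agent.W925.IP

open Pool.Agent.W482.IP
open Filter Topology Set

theorem dird_neg {n : ℕ} (F : (Fin n → ℝ) → ℝ) (x h : Fin n → ℝ) :
    dird 2 F x (-h) = dird 2 F x h := by
  have key := iteratedDeriv_comp_neg 2 (fun t : ℝ => F (x + t • h)) 0
  have e : (fun τ : ℝ => F (x + τ • -h)) = fun τ : ℝ => F (x + (-τ) • h) := by
    funext τ
    simp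
  unfold dird
  rw [e, key]
  simp

/-- a function with derivative at most `C` on `[0,t]` grows at most by `C t` -/
theorem grow (f f' : ℝ → ℝ) (t C : ℝ) (ht : 0 ≤ t)
    (hd : ∀ s ∈ Icc (0 : ℝ) t, HasDerivAt f (f' s) s) (hC : ∀ s ∈ Icc (0 : ℝ) t, f' s ≤ C) :
    f t ≤ f 0 + C * t := by
  have h := Convex.image_sub_le_mul_sub_of_deriv_le (convex_Icc (0 : ℝ) t) (f := f)
    (fun s hs => (hd s hs).continuousAt.continuousWithinAt)
    (fun s hs => (hd s (interior_subset hs)).differentiableAt.differentiableWithinAt)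
    (C := C) (fun s hs => by
      rw [(hd s (interior_subset hs)).deriv]; exact hC s (interior_subset hs))
    0 ⟨le_rfl, ht⟩ t ⟨ht, le_rfl⟩ ht
  linarith

theorem dik_pos (h1 : LINE) (h2 : LIP) {n : ℕ} (G : Set (Fin n → ℝ)) (F : (Fin n → ℝ) → ℝ)
    (ν : ℝ) (hG : IsOpen G) (hF : Barrier ν G F) (x : Fin n → ℝ) (hx : x ∈ G) (h : Fin n → ℝ)
    (τ : ℝ) (hτ : 0 < τ) (hlt : τ * √(dird 2 F x h) < 1) : x + τ • h ∈ G := by
  by_contra hne
  have hh : h ≠ 0 := by
    rintro rfl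
    apply hne
    simpa using hx
  -- the first exit time
  have hcont : Continuous (fun t : ℝ => x + t • h) := by fun_prop
  set T : Set ℝ := Icc 0 τ ∩ (fun t : ℝ => x + t • h) ⁻¹' Gᶜ with hT
  have hTc : IsClosed T := isClosed_Icc.inter (hG.isClosed_compl.preimage hcont)
  have hTn : T.Nonempty := ⟨τ, ⟨hτ.le, le_rfl⟩, hne⟩
  have hTb : BddBelow T := ⟨0, fun t ht => ht.1.1⟩
  have hsT := hTc.csInf_mem hTn hTb
  set t₀ := sInf T with ht₀
  have h00 : t₀ ≠ 0 := by
    intro h0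
    rw [h0] at hsT
    apply hsT.2
    simpa using hx
  have hpos : 0 < t₀ := lt_of_le_of_ne hsT.1.1 (Ne.symm h00)
  have hin : ∀ t ∈ Ico 0 t₀, x + t • h ∈ G := by
    intro t ht
    by_contra hc
    have : t ∈ T := ⟨⟨ht.1, ht.2.le.trans hsT.1.2⟩, hc⟩
    exact absurd (csInf_le hTb this) (not_le.2 ht.2)
  have hev : ∀ᶠ t in 𝓝[<] t₀, t ∈ Ico 0 t₀ := Ico_mem_nhdsLT hpos
  have htend : Tendsto (fun t : ℝ => x + t • h) (𝓝[<] t₀) (𝓝[G] (x + t₀ • h)) := by
    rw [tendsto_nhdsWithin_iff]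
    refine ⟨(hcont.tendsto t₀).mono_left nhdsWithin_le_nhds, ?_⟩
    filter_upwards [hev] with t ht
    exact hin t ht
  have hcl : x + t₀ • h ∈ closure G := by
    refine mem_closure_of_tendsto ((hcont.tendsto t₀).mono_left nhdsWithin_le_nhds)
      (b := 𝓝[<] t₀) ?_
    filter_upwards [hev] with t ht
    exact hin t ht
  have hfr : x + t₀ • h ∈ frontier G := by
    rw [hG.frontier_eq]
    exact ⟨hcl, hsT.2⟩
  have hinf := (hF.blowup _ hfr).comp htend
  -- bounds
  set ρ := √(dird 2 F x h) with hρ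
  have hρ0 : 0 < ρ := Real.sqrt_pos.2 (hF.pos x hx h hh)
  set κ := 1 / ρ - t₀ with hκ
  have hκ0 : 0 < κ := by
    have : t₀ * ρ < 1 := by
      have := hsT.1.2
      nlinarith
    rw [hκ, sub_pos, lt_div_iff₀ hρ0]
    exact this
  have hg : ∀ t ∈ Ico 0 t₀, dird 2 F (x + t • h) h ≤ (1 / κ) ^ 2 := by
    intro t ht
    have hsub : ∀ s ∈ Icc 0 t, x + s • h ∈ G := fun s hs => hin s ⟨hs.1, hs.2.trans_lt ht.2⟩
    have h3 := h2 (fun s => dird 2 F (x + s • h) h) (fun s => dird 3 F (x + s • h) h) 0 t ht.1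
      (fun s hs => ⟨hF.pos _ (hsub s hs) h hh, (h1 G F hG hF.smooth x h s (hsub s hs)).2.2,
        hF.third _ (hsub s hs) h⟩)
    simp only [zero_smul, add_zero, sub_zero] at h3
    have h4 := (abs_le.1 h3).1
    have h5 : κ ≤ 1 / √(dird 2 F (x + t • h) h) := by
      have := ht.2
      rw [hκ, hρ]
      linarith
    have hgp := hF.pos _ (hsub t ⟨ht.1, le_rfl⟩) h hh
    have h6 : 0 < √(dird 2 F (x + t • h) h) := Real.sqrt_pos.2 hgp
    have h7 : √(dird 2 F (x + t • h) h) ≤ 1 / κ := by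
      rw [le_div_iff₀ hκ0]
      rw [le_div_iff₀ h6] at h5
      linarith
    calc dird 2 F (x + t • h) h = √(dird 2 F (x + t • h) h) ^ 2 := (Real.sq_sqrt hgp.le).symm
      _ ≤ (1 / κ) ^ 2 := pow_le_pow_left₀ h6.le h7 2
  set B := (1 / κ) ^ 2 with hB
  have hB0 : 0 ≤ B := by positivity
  have hf : ∀ t ∈ Ico 0 t₀, dird 1 F (x + t • h) h ≤ |dird 1 F x h| + B * t₀ := by
    intro t ht
    have h3 := grow (fun s => dird 1 F (x + s • h) h) (fun s => dird 2 F (x + s • h) h) t B ht.1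
      (fun s hs => (h1 G F hG hF.smooth x h s (hin s ⟨hs.1, hs.2.trans_lt ht.2⟩)).2.1)
      (fun s hs => hg s ⟨hs.1, hs.2.trans_lt ht.2⟩)
    simp only [zero_smul, add_zero] at h3
    have h4 := le_abs_self (dird 1 F x h)
    have h5 := mul_le_mul_of_nonneg_left ht.2.le hB0
    linarith
  set C := |dird 1 F x h| + B * t₀ with hC
  have hC0 : 0 ≤ C := by positivity
  have hFb : ∀ t ∈ Ico 0 t₀, F (x + t • h) ≤ F x + C * t₀ := by
    intro t ht
    have h3 := grow (fun s => F (x + s • h)) (fun s => dird 1 F (x + s • h) h) t C ht.1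
      (fun s hs => (h1 G F hG hF.smooth x h s (hin s ⟨hs.1, hs.2.trans_lt ht.2⟩)).1)
      (fun s hs => hf s ⟨hs.1, hs.2.trans_lt ht.2⟩)
    simp only [zero_smul, add_zero] at h3
    have h5 := mul_le_mul_of_nonneg_left ht.2.le hC0
    linarith
  have hev2 := hinf.eventually (eventually_ge_atTop (F x + C * t₀ + 1))
  obtain ⟨t, ht, ht'⟩ := (hev2.and hev).exists
  have := hFb t ht'
  simp only [Function.comp] at ht
  linarith

theorem dik (h1 : LINE) (h2 : LIP) : DIK := by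
  intro n G F ν hG hF x hx h τ hlt
  rcases lt_trichotomy τ 0 with h0 | h0 | h0
  · have e : x + τ • h = x + (-τ) • (-h) := by simp
    rw [e]
    refine dik_pos h1 h2 G F ν hG hF x hx (-h) (-τ) (by linarith) ?_
    rw [dird_neg]
    rwa [abs_of_neg h0] at hlt
  · subst h0
    simpa using hx
  · rw [abs_of_pos h0] at hlt
    exact dik_pos h1 h2 G F ν hG hF x hx h τ h0 hlt

end Pool.Agent.W925.IP
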