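import Pool.Agent.W482.IP.Stm

/-! Project IP, part TENT: the exponents alternate. -/

set_option autoImplicit false

namespace Pool.Agent.W925.IP

open Pool.Agent.W482.IP

/-- iterated tent map -/
def tS : ℕ → ℤ → ℤ
  | 0, D => D
  | s + 1, D => tS s (2 ^ s - |D|)

theorem tS_val (s : ℕ) : ∀ k : ℕ, k ≤ 2 ^ (s + 1) →
    tS (s + 1) (2 ^ (s + 1) - 2 * (k : ℤ)) = (-1) ^ (k + 1) := by
  induction s with
  | zero =>
    intro k hk
    have hk' : k ≤ 2 := by simpa using hk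
    interval_cases k <;> simp [tS]
  | succ s ih =>
    intro k hk
    obtain ⟨t, ht⟩ : ∃ t : ℕ, 2 ^ (s + 1) = 2 * t := ⟨2 ^ s, by ring⟩
    have ht2 : (2 : ℕ) ^ (s + 1 + 1) = 2 * 2 ^ (s + 1) := by ring
    have htz : (2 : ℤ) ^ (s + 1) = ((2 ^ (s + 1) : ℕ) : ℤ) := by push_cast; rfl
    have ht2z : (2 : ℤ) ^ (s + 1 + 1) = 2 * ((2 ^ (s + 1) : ℕ) : ℤ) := by push_cast; ring
    have e : tS (s + 1 + 1) (2 ^ (s + 1 + 1) - 2 * (k : ℤ)) =
        tS (s + 1) (2 ^ (s + 1) - |2 ^ (s + 1 + 1) - 2 * (k : ℤ)|) := rfl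
    rw [e, ht2z]
    rcases le_total k (2 ^ (s + 1)) with h | h
    · have h1 : (0 : ℤ) ≤ 2 * ((2 ^ (s + 1) : ℕ) : ℤ) - 2 * (k : ℤ) := by omega
      rw [abs_of_nonneg h1]
      have h2 : (2 : ℤ) ^ (s + 1) - (2 * ((2 ^ (s + 1) : ℕ) : ℤ) - 2 * (k : ℤ)) =
          2 ^ (s + 1) - 2 * ((2 ^ (s + 1) - k : ℕ) : ℤ) := by
        rw [Nat.cast_sub h, htz]; ring
      rw [h2, ih _ (Nat.sub_le _ _)]
      apply neg_one_pow_congr
      rw [Nat.even_iff, Nat.even_iff]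
      omega
    · have h1 : 2 * ((2 ^ (s + 1) : ℕ) : ℤ) - 2 * (k : ℤ) ≤ 0 := by omega
      rw [abs_of_nonpos h1]
      have h2 : (2 : ℤ) ^ (s + 1) - -(2 * ((2 ^ (s + 1) : ℕ) : ℤ) - 2 * (k : ℤ)) =
          2 ^ (s + 1) - 2 * ((k - 2 ^ (s + 1) : ℕ) : ℤ) := by
        rw [Nat.cast_sub h, htz]; ring
      rw [h2, ih _ (by omega)]
      apply neg_one_pow_congr
      rw [Nat.even_iff, Nat.even_iff]
      omega

theorem UV_sum (r : ℕ) (a : ℤ) : ∀ j : ℕ, j ≤ r →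
    (UV r a j).1 + (UV r a j).2 = a + 2 ^ r - 2 ^ (r - j) := by
  intro j
  induction j with
  | zero => intro _; simp [UV]
  | succ j ih =>
    intro hj
    have h1 := ih (by omega)
    have h2 : r - j = (r - 1 - j) + 1 := by omega
    have h3 : r - (j + 1) = r - 1 - j := by omega
    have h4 := min_add_max (UV r a j).1 (UV r a j).2
    simp only [UV]
    rw [h2, pow_succ] at h1
    rw [h3]
    linarith

theorem UV_diff (r : ℕ) (a : ℤ) (j : ℕ) :
    (UV r a (j + 1)).1 - (UV r a (j + 1)).2 =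
      2 ^ (r - 1 - j) - |(UV r a j).1 - (UV r a j).2| := by
  simp only [UV]
  have := max_sub_min_eq_abs (UV r a j).1 (UV r a j).2
  rw [abs_sub_comm] at this
  linarith

theorem UV_tS (r : ℕ) (a : ℤ) : ∀ s j : ℕ, j + s = r →
    (UV r a r).1 - (UV r a r).2 = tS s ((UV r a j).1 - (UV r a j).2) := by
  intro s
  induction s with
  | zero =>
    intro j hj
    have : j = r := by omega
    subst this
    rfl
  | succ s ih =>
    intro j hj
    rw [ih (j + 1) (by omega), UV_diff]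
    have : r - 1 - j = s := by omega
    rw [this]
    rfl

theorem tent : Pool.Agent.W482.IP.TENT := by
  intro r k hr hk
  refine ⟨?_, ?_⟩
  · rw [UV_sum r _ r le_rfl]
    simp
  · rw [UV_tS r _ r 0 (by omega)]
    obtain ⟨s, rfl⟩ : ∃ s, r = s + 1 := ⟨r - 1, by omega⟩
    have := tS_val s k hk
    simpa [UV] using this

end Pool.Agent.W925.IP
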